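import Pool.Agent.Helper17.FQ.Th

/-!
# Project FQ (MP_0f6f3f_an): the diagonal part of layer D

`mf μ a f h = ∫ f (a(h, x))`, `ff μ a w f N g` the square average of `mf (w^n g w^m)`. `dd`: the square averages of `tn μ a w l f` and the integrals of `ff N (σ x l σ y⁻¹)`
over `x`, `y` are asymptotically equal: the sandwich at `l` is the average of the sandwiches `w^n g w^m`, `g = σ x l σ y⁻¹`.
-/

set_option autoImplicit false
set_option linter.unusedSectionVars false

open MeasureTheory Filter Topology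
open scoped ENNReal

namespace Pool.Agent.Helper17.FQ

open Pool.Agent.Helper84 Pool.Agent.Helper84.GN Pool.Agent.Helper84.GN.S3 Pool.Agent.Helper84.GN.S3.X
open Pool.Agent.Helper84.NI Pool.Agent.Helper84.GVN Pool.Agent.Helper90.RK
open Pool.Agent.Helper96.RK Pool.Agent.Helper66.FR Pool.Agent.Helper84.FR Pool.Agent.Helper55.FR
open Pool.Agent.Helper45.FQ (HC)
open Pool.Agent.Helper52.FQ

variable {G1 X Λ : Type} [Group G1] [TopologicalSpace G1] [IsTopologicalGroup G1] [SecondCountableTopology G1] [LocallyCompactSpace G1]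
  [MeasurableSpace G1] [BorelSpace G1] [MeasurableSpace X] [MulAction G1 X]
  [MeasurableConstSMul G1 X] [Group Λ] [Countable Λ] {μ : Measure X} [SMulInvariantMeasure G1 X μ]
  [IsProbabilityMeasure μ] {a : Cocy G1 X Λ} {f : Λ → ℝ} {C : ℝ} {w : G1} {j : Λ →* G1} {hm : Measure G1} {σ : X → G1} {l : Λ}

/-- The average of `f` over the values of the cocycle at `h`. -/
noncomputable def mf (μ : Measure X) (a : Cocy G1 X Λ) (f : Λ → ℝ) (h : G1) : ℝ := ∫ x, f (a.a h x) ∂μ

/-- The square averages of `mf (w^n g w^m)`. -/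
noncomputable def ff (μ : Measure X) (a : Cocy G1 X Λ) (w : G1) (f : Λ → ℝ) (N : ℕ) (g : G1) : ℝ :=
  sa ℝ (fun n m => mf μ a f (w ^ n * g * w ^ m)) N

theorem int_mf (hf : ∀ l, |f l| ≤ C) (h : G1) : Integrable (fun x => f (a.a h x)) μ := by
  let mΛ : MeasurableSpace Λ := ⊤
  have hd : DiscreteMeasurableSpace Λ := ⟨fun _ => trivial⟩
  have h1 : Measurable (a.a h) := measurable_to_countable' fun l => a.meas h l
  exact Integrable.of_bound ((measurable_of_countable f).comp h1).aestronglyMeasurable C (ae_of_all _ fun _ => hf _)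

theorem abs_mf_le (hf : ∀ l, |f l| ≤ C) (h : G1) : |mf μ a f h| ≤ C := by
  have h1 := norm_integral_le_of_norm_le_const (μ := μ) (f := fun x => f (a.a h x)) (C := C) (ae_of_all _ fun x => hf _)
  rw [probReal_univ, mul_one] at h1
  exact h1

theorem abs_ff_le (hf : ∀ l, |f l| ≤ C) (N : ℕ) (g : G1) : |ff μ a w f N g| ≤ C :=
  norm_sa_le ℝ (f := fun n m => mf μ a f (w ^ n * g * w ^ m)) (fun _ _ => abs_mf_le hf _) N

theorem meas_coc (h : HC μ a.a j hm σ) (f : Λ → ℝ) : Measurable fun p : G1 × X => f (a.a p.1 p.2) := by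
  let mΛ : MeasurableSpace Λ := ⊤
  have hd : DiscreteMeasurableSpace Λ := ⟨fun _ => trivial⟩
  have h1 : Measurable fun p : G1 × X => a.a p.1 p.2 := measurable_to_countable' fun l => h.ma l
  exact (measurable_of_countable f).comp h1

theorem meas_mf (h : HC μ a.a j hm σ) (f : Λ → ℝ) : Measurable (mf μ a f) :=
  ((meas_coc h f).stronglyMeasurable.integral_prod_right').measurable

theorem meas_ff (h : HC μ a.a j hm σ) (f : Λ → ℝ) (N : ℕ) : Measurable (ff μ a w f N) := by
  unfold ff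
  simp only [sa, smul_eq_mul]
  refine Measurable.const_mul ?_ _
  refine Finset.measurable_fun_sum _ fun n _ => Finset.measurable_fun_sum _ fun m _ => ?_
  exact (meas_mf h f).comp ((measurable_const_mul _).mul_const _)

/-- Integrals over the fibres, functions of the group element. -/
theorem integral_fibg (h : HC μ a.a j hm σ) (l : Λ) (x : X) (F : G1 → ℝ) (hF : Measurable F) :
    ∫ g, {g : G1 | a.a g (g⁻¹ • x) = l}.indicator F g ∂hm = ∫ y, F (σ x * j l * (σ y)⁻¹) ∂μ := by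
  have hs : Measurable fun y => σ x * j l * (σ y)⁻¹ := (measurable_const_mul _).comp (measurable_inv.comp h.ms)
  rw [integral_indicator (meas_fibx h l x), ← map_fib h l x, integral_map hs.aemeasurable hF.aestronglyMeasurable]

/-- The measure of the fibre. -/
noncomputable def cg (μ : Measure X) (a : Cocy G1 X Λ) (l : Λ) (g : G1) : ℝ := (μ {y | a.a g y = l}).toReal

theorem cg_eq (g : G1) : (μ {x | a.a g (g⁻¹ • x) = l}).toReal = cg μ a l g := by
  have h : μ ((fun x => g⁻¹ • x) ⁻¹' {y | a.a g y = l}) = μ {y | a.a g y = l} :=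
    (measurePreserving_smul g⁻¹ μ).measure_preimage (a.meas g l).nullMeasurableSet
  rw [cg, ← h]
  rfl

theorem int_cg (h : HC μ a.a j hm σ) : Integrable (cg μ a l) hm := by
  have := sigma_hm h
  have h5 : Integrable ({p : G1 × X | a.a p.1 (p.1⁻¹ • p.2) = l}.indicator fun _ => (1 : ℝ)) (hm.prod μ) := by
    rw [integrable_indicator_iff (meas_fib h l)]
    refine integrableOn_const ?_
    rw [meas_S h l]
    exact ENNReal.one_ne_top
  refine h5.integral_prod_left.congr (ae_of_all _ fun g => ?_)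
  have hml : MeasurableSet {x | a.a g (g⁻¹ • x) = l} := (measurable_const_smul g⁻¹) (a.meas g l)
  show ∫ x, {x | a.a g (g⁻¹ • x) = l}.indicator (fun _ => (1 : ℝ)) x ∂μ = _
  rw [integral_indicator hml, integral_const, smul_eq_mul, mul_one, measureReal_restrict_apply_univ, measureReal_def, cg_eq]

/-- The average over `x`, `y` as an integral over `g`. -/
theorem int_sig (h : HC μ a.a j hm σ) {F : G1 → ℝ} (hF : Measurable F) (hb : ∀ g, |F g| ≤ C) :
    ∫ x, ∫ y, F (σ x * j l * (σ y)⁻¹) ∂μ ∂μ = ∫ g, cg μ a l g * F g ∂hm := by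
  have := sigma_hm h
  have h1 : Integrable (fun p : G1 × X => {p : G1 × X | a.a p.1 (p.1⁻¹ • p.2) = l}.indicator (fun p => F p.1) p) (hm.prod μ) := by
    have h5 : Integrable ({p : G1 × X | a.a p.1 (p.1⁻¹ • p.2) = l}.indicator fun _ => C) (hm.prod μ) := by
      rw [integrable_indicator_iff (meas_fib h l)]
      refine integrableOn_const ?_
      rw [meas_S h l]
      exact ENNReal.one_ne_top
    refine h5.mono' ((hF.comp measurable_fst).indicator (meas_fib h l)).aestronglyMeasurable (ae_of_all _ fun p => ?_)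
    by_cases hp : p ∈ {p : G1 × X | a.a p.1 (p.1⁻¹ • p.2) = l}
    · rw [Set.indicator_of_mem hp, Set.indicator_of_mem hp]
      exact hb _
    · rw [Set.indicator_of_notMem hp, Set.indicator_of_notMem hp, norm_zero]
  have h2 : ∫ x, ∫ y, F (σ x * j l * (σ y)⁻¹) ∂μ ∂μ =
      ∫ x, ∫ g, {p : G1 × X | a.a p.1 (p.1⁻¹ • p.2) = l}.indicator (fun p => F p.1) (g, x) ∂hm ∂μ := by
    refine integral_congr_ae (ae_of_all _ fun x => ?_)
    exact (integral_fibg h l x F hF).symm
  rw [h2, ← integral_integral_swap h1]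
  refine integral_congr_ae (ae_of_all _ fun g => ?_)
  have hml : MeasurableSet {x | a.a g (g⁻¹ • x) = l} := (measurable_const_smul g⁻¹) (a.meas g l)
  show ∫ x, {x | a.a g (g⁻¹ • x) = l}.indicator (fun _ => F g) x ∂μ = _
  rw [integral_indicator hml, integral_const, smul_eq_mul, measureReal_restrict_apply_univ, measureReal_def, cg_eq]

/-- The hypotheses on `w`: trivial representation. -/
structure WH (μ : Measure X) [SMulInvariantMeasure G1 X μ] [IsProbabilityMeasure μ] (a : Cocy G1 X Λ) (hm : Measure G1) (w : G1) : Prop where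
  /-- the invariant functions of `w` are constant -/
  erg : ∀ φ : XL μ ℂ, vg μ a (1 : Λ →* (ℂ ≃ₗᵢ[ℂ] ℂ)) w φ = φ → ∃ c : ℂ, φ = cst μ c
  /-- the big cell of `w` -/
  cell : ∀ᵐ g ∂hm, ∃ p l q : G1, g = p * l * q ∧ Tendsto (fun n : ℕ => w ^ n * p * (w ^ n)⁻¹) atTop (𝓝 1) ∧ w * l = l * w ∧
      Tendsto (fun n : ℕ => (w ^ n)⁻¹ * q * w ^ n) atTop (𝓝 1)

theorem vg_cst (g : G1) (c : ℂ) : vg μ a (1 : Λ →* (ℂ ≃ₗᵢ[ℂ] ℂ)) g (cst μ c) = cst μ c := by
  refine xl_ext ?_
  filter_upwards [vg_apply a (1 : Λ →* (ℂ ≃ₗᵢ[ℂ] ℂ)) g (cst μ c), cst_apply (μ := μ) c,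
    (measurePreserving_smul g⁻¹ μ).quasiMeasurePreserving.ae (cst_apply (μ := μ) c)] with x h1 h2 h3
  rw [h1, h2, h3]
  rfl

theorem inner_cst_kk (hf : ∀ l, |f l| ≤ C) (g : G1) (n m : ℕ) :
    inner ℂ (cst μ (1 : ℂ)) (kk μ a (1 : Λ →* (ℂ ≃ₗᵢ[ℂ] ℂ)) (fun l => (f l : ℂ)) w g n m) = ((mf μ a f (w ^ n * g * w ^ m) : ℝ) : ℂ) := by
  have hk : ∀ l, ‖(fun l => (f l : ℂ)) l‖ ≤ C := fun l => by
    show ‖(f l : ℂ)‖ ≤ C
    rw [Complex.norm_real]
    exact hf l
  have h1 := (vgR μ a (1 : Λ →* (ℂ ≃ₗᵢ[ℂ] ℂ)) (w ^ m)).inner_map_map (cst μ (1 : ℂ)) (kv μ a (fun l => (f l : ℂ)) (w ^ n * g * w ^ m))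
  rw [vgR_apply, vgR_apply, vg_cst] at h1
  rw [kk, h1, xl_inner, mf, ← integral_complex_ofReal]
  refine integral_congr_ae ?_
  filter_upwards [cst_apply (μ := μ) (1 : ℂ), kv_apply (μ := μ) (a := a) hk (w ^ n * g * w ^ m)] with x e1 e2
  rw [e1, e2]
  simp

theorem fF_real (f : Λ → ℝ) (n m : ℕ) :
    jf μ a (1 : Λ →* (ℂ ≃ₗᵢ[ℂ] ℂ)) (1 : ℂ) (fun l => (f l : ℂ)) w l n m = ((tn μ a w l f n m : ℝ) : ℂ) := by
  unfold jf tn
  rw [← integral_complex_ofReal]
  refine integral_congr_ae (ae_of_all _ fun x => ?_)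
  simp only
  rw [← integral_complex_ofReal]
  refine integral_congr_ae (ae_of_all _ fun z => ?_)
  simp

/-- **The diagonal part of layer D.** -/
theorem dd (h : HC μ a.a j hm σ) (hU : Unq j σ) (hf : ∀ l, |f l| ≤ C)
    (h3 : Tendsto (fun g : G1 => μ {x | a.a g x ≠ 1}) (𝓝 1) (𝓝 0)) (hw : WH μ a hm w) (l : Λ) :
    Tendsto (fun N => sa ℝ (tn μ a w l f) N - ∫ x, ∫ y, ff μ a w f N (σ x * j l * (σ y)⁻¹) ∂μ ∂μ) atTop (𝓝 0) := by
  have := sigma_hm h
  have hC : 0 ≤ C := (abs_nonneg _).trans (hf 1)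
  have hk : ∀ l, ‖(fun l => (f l : ℂ)) l‖ ≤ C := fun l => by
    show ‖(f l : ℂ)‖ ≤ C
    rw [Complex.norm_real]
    exact hf l
  set A0 : Λ →* (ℂ ≃ₗᵢ[ℂ] ℂ) := 1 with hA0
  set k : Λ → ℂ := fun l => (f l : ℂ) with hkd
  obtain ⟨D, hD⟩ : ∃ D : ℕ → G1 → ℂ, D = fun N g => sa ℂ (fun n m => fF μ a A0 (1 : ℂ) k w l n m g) N -
      ((cg μ a l g * ff μ a w f N g : ℝ) : ℂ) := ⟨_, rfl⟩
  have hi1 : ∀ N, Integrable (fun g => sa ℂ (fun n m => fF μ a A0 (1 : ℂ) k w l n m g) N) hm := by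
    intro N
    simp only [sa, smul_eq_mul]
    exact (integrable_finsetSum _ fun n _ => integrable_finsetSum _ fun m _ => int_fF h hk).const_mul _
  have hi2 : ∀ N, Integrable (fun g => cg μ a l g * ff μ a w f N g) hm := by
    intro N
    refine (int_cg (l := l) h).mul_bdd (c := C) (meas_ff h f N).aestronglyMeasurable (ae_of_all _ fun g => ?_)
    exact abs_ff_le hf N g
  have hi3 : ∀ N, Integrable (fun g => ((cg μ a l g * ff μ a w f N g : ℝ) : ℂ)) hm := fun N => (hi2 N).ofReal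
  have e1 : ∀ N, ∫ g, D N g ∂hm = ((sa ℝ (tn μ a w l f) N - ∫ x, ∫ y, ff μ a w f N (σ x * j l * (σ y)⁻¹) ∂μ ∂μ : ℝ) : ℂ) := by
    intro N
    have e0 : ∫ g, D N g ∂hm = ∫ g, (sa ℂ (fun n m => fF μ a A0 (1 : ℂ) k w l n m g) N -
      ((cg μ a l g * ff μ a w f N g : ℝ) : ℂ)) ∂hm := by rw [hD]
    rw [e0, integral_sub (hi1 N) (hi3 N), integral_complex_ofReal, ← int_sig h (meas_ff h f N) (abs_ff_le hf N)]
    push_cast
    congr 1
    rw [← sa_ofReal]
    simp only [sa, smul_eq_mul]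
    rw [integral_const_mul, integral_finsetSum _ fun n _ => integrable_finsetSum _ fun m _ => int_fF h hk]
    congr 1
    refine Finset.sum_congr rfl fun n _ => ?_
    rw [integral_finsetSum _ fun m _ => int_fF h hk]
    refine Finset.sum_congr rfl fun m _ => ?_
    rw [jf_eq h hU hk, fF_real f]
  have hb : Integrable (fun g => 2 * C * cg μ a l g) hm := (int_cg h).const_mul _
  have h4 : Tendsto (fun N => ∫ g, D N g ∂hm) atTop (𝓝 (∫ _, (0 : ℂ) ∂hm)) := by
    refine tendsto_integral_of_dominated_convergence (fun g => 2 * C * cg μ a l g) ?_ hb ?_ ?_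
    · intro N
      rw [hD]
      exact ((hi1 N).sub (hi3 N)).aestronglyMeasurable
    · intro N
      refine ae_of_all _ fun g => ?_
      rw [hD]
      refine (norm_sub_le _ _).trans ?_
      have h5 : ‖sa ℂ (fun n m => fF μ a A0 (1 : ℂ) k w l n m g) N‖ ≤ C * cg μ a l g := by
        refine norm_sa_le ℂ (fun n m => ?_) N
        have h6 := norm_fF_le (μ := μ) (a := a) (A0 := A0) (v0 := (1 : ℂ)) (w := w) (l := l) (n := n) (m := m) hk g
        rwa [cg_eq, norm_one, one_mul] at h6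
      have h6 : ‖((cg μ a l g * ff μ a w f N g : ℝ) : ℂ)‖ ≤ C * cg μ a l g := by
        rw [Complex.norm_real, Real.norm_eq_abs, abs_mul, mul_comm, abs_of_nonneg (show 0 ≤ cg μ a l g from ENNReal.toReal_nonneg)]
        exact mul_le_mul_of_nonneg_right (abs_ff_le hf N g) ENNReal.toReal_nonneg
      linarith
    · filter_upwards [hw.cell] with g hg
      obtain ⟨p, l', q, rfl, hp, hl, hq⟩ := hg
      have hfix : ∀ φ, vg μ a A0 w φ = φ → ∀ g, vg μ a A0 g φ = φ := by
        intro φ hφ g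
        obtain ⟨c, rfl⟩ := hw.erg φ hφ
        exact vg_cst g c
      have h7 := kk_weak (μ := μ) (a := a) (A0 := A0) hk h3 hfix hp hl hq
        (η := eg μ a (1 : ℂ) l (p * l' * q) - ((cg μ a l (p * l' * q) : ℝ) : ℂ) • cst μ (1 : ℂ)) (fun φ hφ => by
          obtain ⟨c, rfl⟩ := hw.erg φ (hφ w)
          have hml : MeasurableSet {y | a.a (p * l' * q) y = l} := a.meas _ l
          rw [inner_sub_right, inner_smul_right, eg, xl_inner, xl_inner]
          have e3 : ∫ x, inner ℂ ((cst μ c : XL μ ℂ) x) ((xE μ ℂ {y | a.a (p * l' * q) y = l} (cst μ (1 : ℂ)) : XL μ ℂ) x) ∂μ =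
              ∫ x, {y | a.a (p * l' * q) y = l}.indicator (fun _ => inner ℂ c (1 : ℂ)) x ∂μ := by
            refine integral_congr_ae ?_
            filter_upwards [xE_apply hml (cst μ (1 : ℂ) : XL μ ℂ), cst_apply (μ := μ) (1 : ℂ), cst_apply (μ := μ) c] with y e1 e2 e4
            rw [e1, e2, e4]
            by_cases hy : y ∈ {y | a.a (p * l' * q) y = l}
            · rw [Set.indicator_of_mem hy, Set.indicator_of_mem hy, one_smul]
            · rw [Set.indicator_of_notMem hy, Set.indicator_of_notMem hy, zero_smul, inner_zero_right]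
          have e5 : ∫ x, inner ℂ ((cst μ c : XL μ ℂ) x) ((cst μ (1 : ℂ) : XL μ ℂ) x) ∂μ = inner ℂ c (1 : ℂ) := by
            have e6 : ∫ x, inner ℂ ((cst μ c : XL μ ℂ) x) ((cst μ (1 : ℂ) : XL μ ℂ) x) ∂μ = ∫ _x, inner ℂ c (1 : ℂ) ∂μ := by
              refine integral_congr_ae ?_
              filter_upwards [cst_apply (μ := μ) (1 : ℂ), cst_apply (μ := μ) c] with y e2 e4
              rw [e2, e4]
            rw [e6, integral_const, probReal_univ, one_smul]
          rw [e3, e5, integral_indicator hml, setIntegral_const, measureReal_def, cg, Complex.real_smul, sub_self])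
      refine h7.congr fun N => ?_
      rw [hD]
      show _ = sa ℂ (fun n m => fF μ a A0 (1 : ℂ) k w l n m (p * l' * q)) N - _
      rw [inner_sub_left, inner_smul_left, Complex.conj_ofReal, ← innerSL_apply_apply ℂ, sa_clm, ← innerSL_apply_apply ℂ (cst μ (1 : ℂ)), sa_clm]
      congr 1
      · congr 1
        funext n m
        rw [innerSL_apply_apply]
        exact (fF_eq hk _).symm
      · rw [Complex.ofReal_mul, ff, ← sa_ofReal]
        congr 2
        funext n m
        rw [innerSL_apply_apply]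
        exact inner_cst_kk hf _ n m
  rw [integral_zero] at h4
  have h8 : Tendsto (fun N => ((sa ℝ (tn μ a w l f) N - ∫ x, ∫ y, ff μ a w f N (σ x * j l * (σ y)⁻¹) ∂μ ∂μ : ℝ) : ℂ)) atTop (𝓝 0) :=
    h4.congr e1
  have h9 := (Complex.continuous_re.tendsto _).comp h8
  rw [Complex.zero_re] at h9
  exact h9.congr fun N => Complex.ofReal_re _

end Pool.Agent.Helper17.FQ
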