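import Pool.Agent.Helper52.FQ.Int
import Pool.Agent.Helper9.FQ.U2
import Pool.Agent.Helper85.FQ.LatSize

/-!
# Project FQ (MP_0f6f3f_an): the laws `θ` of the kernel lemma

`pm E S l = |1_S u_l|^2`; `tn μ a w l f n m = ∫∫ f (a(w^n, x) l a(w^m, z))`; `th μ a E w l S` is the limit along the hyperfilter of the square averages of
`tn μ a w l (pm E S)` (for the window `N ≤ n, m < 2 N`). `th_fprob`: it is a finitely additive probability in `S`.
-/

set_option autoImplicit false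
set_option linter.unusedSectionVars false

open MeasureTheory Filter Topology

namespace Pool.Agent.Helper17.FQ

open Pool.Agent.Helper84.NI Pool.Agent.Helper84.GVN Pool.Agent.Helper90.RK
open Pool.Agent.Helper84.GN hiding toReg
open Pool.Agent.Helper96.RK Pool.Agent.Helper66.FR Pool.Agent.Helper84.FR Pool.Agent.Helper96.FR Pool.Agent.Helper55.FR
open Pool.Agent.Helper52.FQ (sa sa_mono sa_nonneg sa_const sa_add norm_sa_le)
open Pool.Agent.Helper85.KL

section Lim

/-- The limit of a bounded real sequence along the hyperfilter. -/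
noncomputable def ulr (f : ℕ → ℝ) : ℝ := limUnder (hyperfilter ℕ : Filter ℕ) f

theorem tendsto_ulr {f : ℕ → ℝ} {C : ℝ} (hf : ∀ n, |f n| ≤ C) : Tendsto f (hyperfilter ℕ : Filter ℕ) (𝓝 (ulr f)) := by
  obtain ⟨z, hz⟩ := exists_ulim (f := fun n => (f n : ℂ)) (C := C) (fun n => by rw [Complex.norm_real]; exact hf n)
  have h1 : Tendsto (fun n => ((f n : ℂ)).re) (hyperfilter ℕ : Filter ℕ) (𝓝 z.re) := (Complex.continuous_re.tendsto _).comp hz
  exact tendsto_nhds_limUnder ⟨z.re, h1⟩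

theorem ulr_eq {f : ℕ → ℝ} {z : ℝ} (h : Tendsto f (hyperfilter ℕ : Filter ℕ) (𝓝 z)) : ulr f = z := h.limUnder_eq

theorem ulr_const (c : ℝ) : ulr (fun _ => c) = c := ulr_eq tendsto_const_nhds

theorem hyper_atTop : (hyperfilter ℕ : Filter ℕ) ≤ atTop := by
  rw [← Nat.cofinite_eq_atTop]
  exact hyperfilter_le_cofinite

theorem ulr_le_of {f : ℕ → ℝ} {C c : ℝ} (hf : ∀ n, |f n| ≤ C) (h : ∀ᶠ n in atTop, f n ≤ c) : ulr f ≤ c :=
  le_of_tendsto (tendsto_ulr hf) (h.filter_mono hyper_atTop)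

theorem le_ulr_of {f : ℕ → ℝ} {C c : ℝ} (hf : ∀ n, |f n| ≤ C) (h : ∀ᶠ n in atTop, c ≤ f n) : c ≤ ulr f :=
  ge_of_tendsto (tendsto_ulr hf) (h.filter_mono hyper_atTop)

theorem ulr_mono {f g : ℕ → ℝ} {C C' : ℝ} (hf : ∀ n, |f n| ≤ C) (hg : ∀ n, |g n| ≤ C') (h : ∀ᶠ n in atTop, f n ≤ g n) :
    ulr f ≤ ulr g :=
  le_of_tendsto_of_tendsto (tendsto_ulr hf) (tendsto_ulr hg) (h.filter_mono hyper_atTop)

theorem ulr_congr {f g : ℕ → ℝ} {C : ℝ} (hg : ∀ n, |g n| ≤ C) (h : Tendsto (fun n => f n - g n) atTop (𝓝 0)) : ulr f = ulr g := by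
  refine ulr_eq ?_
  have h1 := (h.mono_left hyper_atTop).add (tendsto_ulr hg)
  rw [zero_add] at h1
  exact h1.congr fun n => sub_add_cancel _ _

theorem ulr_add {f g : ℕ → ℝ} {C C' : ℝ} (hf : ∀ n, |f n| ≤ C) (hg : ∀ n, |g n| ≤ C') :
    ulr (fun n => f n + g n) = ulr f + ulr g := ulr_eq ((tendsto_ulr hf).add (tendsto_ulr hg))

/-- Along the hyperfilter the sequence is below `c` infinitely often if its limit is. -/
theorem ulr_freq {f : ℕ → ℝ} {C c : ℝ} (hf : ∀ n, |f n| ≤ C) (h : ulr f < c) : ∀ᶠ n in (hyperfilter ℕ : Filter ℕ), f n < c :=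
  (tendsto_ulr hf).eventually (gt_mem_nhds h)

end Lim

section Mass

variable {G Λ : Type} [Group G] [Group Λ] {E : Emb Λ G}

/-- The mass of `u_l` on `S`. -/
noncomputable def pm (E : Emb Λ G) (S : Set G) (l : Λ) : ℝ := ‖ind ℂ S (cf (E.U l))‖ ^ 2

theorem pm_nonneg (S : Set G) (l : Λ) : 0 ≤ pm E S l := sq_nonneg _

theorem pm_le_one (S : Set G) (l : Λ) : pm E S l ≤ 1 := by
  have h := (norm_ind2 S (cf (E.U l))).trans (norm_cf _).le
  have := pow_le_pow_left₀ (norm_nonneg _) h 2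
  rwa [one_pow] at this

theorem pm_hasSum (S : Set G) (l : Λ) : HasSum (S.indicator fun k => ‖cf (E.U l) k‖ ^ 2) (pm E S l) := by
  classical
  refine (lv_hasSum (ind ℂ S (cf (E.U l)))).congr_fun fun i => ?_
  rw [ind_apply]
  by_cases h : i ∈ S
  · rw [Set.indicator_of_mem h, if_pos h]
  · rw [Set.indicator_of_notMem h, if_neg h, norm_zero, zero_pow two_ne_zero]

theorem pm_eq (S : Set G) (l : Λ) : pm E S l = mass (fun k => ‖cf (E.U l) k‖ ^ 2) S := (pm_hasSum S l).tsum_eq.symm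

theorem pw_row (l : Λ) : PW fun k => ‖cf (E.U l) k‖ ^ 2 := by
  refine ⟨fun k => sq_nonneg _, ?_⟩
  have h := lv_hasSum (cf (E.U l))
  rwa [norm_cf, one_pow] at h

theorem pm_mono {S T : Set G} (h : S ⊆ T) (l : Λ) : pm E S l ≤ pm E T l := by
  rw [pm_eq, pm_eq]
  exact (pw_row l).mass_mono h

theorem pm_empty (l : Λ) : pm E ∅ l = 0 := by
  rw [pm_eq, PW.mass_empty]

theorem pm_univ (l : Λ) : pm E Set.univ l = 1 := by
  rw [pm_eq, (pw_row l).mass_univ]

theorem pm_union (S T : Set G) (l : Λ) : pm E (S ∪ T) l ≤ pm E S l + pm E T l := by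
  rw [pm_eq, pm_eq, pm_eq]
  exact (pw_row l).mass_union S T

end Mass

section Theta

variable {G1 X G Λ : Type} [Group G1] [MeasurableSpace X] [MulAction G1 X]
  [MeasurableConstSMul G1 X] [Group Λ] [Countable Λ] {μ : Measure X} [SMulInvariantMeasure G1 X μ]
  [IsProbabilityMeasure μ] {a : Cocy G1 X Λ} [Group G] {E : Emb Λ G} {w : G1} {l : Λ}

/-- The average of `f` along `a(w^n, x) l a(w^m, z)`. -/
noncomputable def tn (μ : Measure X) (a : Cocy G1 X Λ) (w : G1) (l : Λ) (f : Λ → ℝ) (n m : ℕ) : ℝ :=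
  ∫ x, ∫ z, f (a.a (w ^ n) x * l * a.a (w ^ m) z) ∂μ ∂μ

/-- The law `θ`. -/
noncomputable def th (μ : Measure X) (a : Cocy G1 X Λ) (E : Emb Λ G) (w : G1) (l : Λ) (S : Set G) : ℝ :=
  ulr fun N => sa ℝ (tn μ a w l (pm E S)) N

variable {f g : Λ → ℝ}

theorem meas_tn (f : Λ → ℝ) (n m : ℕ) : Measurable fun p : X × X => f (a.a (w ^ n) p.1 * l * a.a (w ^ m) p.2) := by
  let mΛ : MeasurableSpace Λ := ⊤
  have hd : DiscreteMeasurableSpace Λ := ⟨fun _ => trivial⟩
  have h1 : Measurable (a.a (w ^ n)) := measurable_to_countable' fun l => a.meas (w ^ n) l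
  have h2 : Measurable (a.a (w ^ m)) := measurable_to_countable' fun l => a.meas (w ^ m) l
  have h3 : Measurable fun p : X × X => (a.a (w ^ n) p.1, a.a (w ^ m) p.2) := (h1.comp measurable_fst).prodMk (h2.comp measurable_snd)
  have h4 : Measurable fun c : Λ × Λ => f (c.1 * l * c.2) := measurable_of_countable _
  exact h4.comp h3

theorem int_tn {C : ℝ} (hf : ∀ l, |f l| ≤ C) (n m : ℕ) :
    Integrable (fun p : X × X => f (a.a (w ^ n) p.1 * l * a.a (w ^ m) p.2)) (μ.prod μ) :=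
  Integrable.of_bound (meas_tn f n m).aestronglyMeasurable C (ae_of_all _ fun _ => hf _)

theorem tn_eq {C : ℝ} (hf : ∀ l, |f l| ≤ C) (n m : ℕ) :
    tn μ a w l f n m = ∫ p : X × X, f (a.a (w ^ n) p.1 * l * a.a (w ^ m) p.2) ∂(μ.prod μ) :=
  (integral_prod _ (int_tn hf n m)).symm

theorem tn_mono {C C' : ℝ} (hf : ∀ l, |f l| ≤ C) (hg : ∀ l, |g l| ≤ C') (h : ∀ l, f l ≤ g l) (n m : ℕ) :
    tn μ a w l f n m ≤ tn μ a w l g n m := by
  rw [tn_eq hf, tn_eq hg]
  exact integral_mono (int_tn hf n m) (int_tn hg n m) fun _ => h _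

theorem tn_const (c : ℝ) (n m : ℕ) : tn μ a w l (fun _ => c) n m = c := by
  unfold tn
  simp

theorem tn_add {C C' : ℝ} (hf : ∀ l, |f l| ≤ C) (hg : ∀ l, |g l| ≤ C') (n m : ℕ) :
    tn μ a w l (fun l => f l + g l) n m = tn μ a w l f n m + tn μ a w l g n m := by
  rw [tn_eq hf, tn_eq hg, tn_eq (f := fun l => f l + g l) (C := C + C') (fun l => (abs_add_le _ _).trans (add_le_add (hf l) (hg l))),
    ← integral_add (int_tn hf n m) (int_tn hg n m)]

theorem abs_tn_le {C : ℝ} (hf : ∀ l, |f l| ≤ C) (n m : ℕ) : |tn μ a w l f n m| ≤ C := by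
  have h1 := tn_mono (μ := μ) (a := a) (w := w) (l := l) (f := f) (g := fun _ => C) hf (C' := |C|) (fun _ => le_rfl)
    (fun l => (abs_le.1 (hf l)).2) n m
  have h2 := tn_mono (μ := μ) (a := a) (w := w) (l := l) (f := fun _ => -C) (g := f) (C := |C|) (fun _ => (abs_neg C).le) hf
    (fun l => (abs_le.1 (hf l)).1) n m
  rw [tn_const] at h1 h2
  exact abs_le.2 ⟨h2, h1⟩

theorem abs_sa_tn_le {C : ℝ} (hf : ∀ l, |f l| ≤ C) (N : ℕ) : |sa ℝ (tn μ a w l f) N| ≤ C :=
  norm_sa_le ℝ (f := tn μ a w l f) (fun n m => abs_tn_le hf n m) N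

theorem abs_pm (S : Set G) (l : Λ) : |pm E S l| ≤ 1 := by
  rw [abs_of_nonneg (pm_nonneg S l)]
  exact pm_le_one S l

theorem th_fprob : FProb (th μ a E w l) where
  empty := by
    unfold th
    have h : (fun N => sa ℝ (tn μ a w l (pm E ∅)) N) = fun _ => 0 := by
      funext N
      have h1 : tn μ a w l (pm E ∅) = fun _ _ => 0 := by
        funext n m
        have h2 : pm E (∅ : Set G) = fun _ => 0 := by
          funext l
          exact pm_empty l
        rw [h2, tn_const]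
      rw [h1]
      simp [sa]
    rw [h, ulr_const]
  univ := by
    unfold th
    refine ulr_eq ?_
    refine (tendsto_const_nhds (x := (1 : ℝ)) (f := (hyperfilter ℕ : Filter ℕ))).congr' ?_
    have h3 : ∀ᶠ N : ℕ in (hyperfilter ℕ : Filter ℕ), N ≠ 0 := (eventually_ne_atTop 0).filter_mono hyper_atTop
    filter_upwards [h3] with N hN
    have h1 : tn μ a w l (pm E Set.univ) = fun _ _ => 1 := by
      funext n m
      have h2 : pm E (Set.univ : Set G) = fun _ => 1 := by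
        funext l
        exact pm_univ l
      rw [h2, tn_const]
    rw [h1, sa_const ℝ 1 hN]
  mono S T h := by
    unfold th
    exact ulr_mono (abs_sa_tn_le (abs_pm S)) (abs_sa_tn_le (abs_pm T)) (Eventually.of_forall fun N =>
      sa_mono fun n m _ _ => tn_mono (abs_pm S) (abs_pm T) (fun l => pm_mono h l) n m)
  sub S T := by
    unfold th
    rw [← ulr_add (abs_sa_tn_le (abs_pm S)) (abs_sa_tn_le (abs_pm T))]
    refine ulr_mono (abs_sa_tn_le (abs_pm _)) (C' := 1 + 1) (fun N => (abs_add_le _ _).trans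
      (add_le_add (abs_sa_tn_le (abs_pm S) N) (abs_sa_tn_le (abs_pm T) N))) (Eventually.of_forall fun N => ?_)
    rw [← sa_add]
    refine sa_mono fun n m _ _ => ?_
    rw [← tn_add (abs_pm S) (abs_pm T)]
    exact tn_mono (abs_pm _) (C' := 1 + 1) (fun l => (abs_add_le _ _).trans (add_le_add (abs_pm S l) (abs_pm T l)))
      (fun l => pm_union S T l) n m

end Theta

end Pool.Agent.Helper17.FQ
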