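import Pool.Agent.Helper17.FQ.Dd
import Pool.Agent.Helper45.FQ.Loc6
import Pool.Agent.Helper46.FQ.LCDef

/-!
# Project FQ (MP_0f6f3f_an): the field `per` of the sandwich data

`LC ν D σ` (Helper46/FQ/LCDef.lean), Lemma C: off a small set of `(x, y)` the gaps of `ea c (σ x h σ y⁻¹) ea c'` are those of `h` plus `c + c'` up to a constant, uniformly in `h`, `c`, `c'`.
`per`: if the gaps different from `u` of `l`, `l'` agree up to `C` and `th l` is small on the `K`-neighbourhood of `S` then `th l'` is small on `S`.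
-/

set_option autoImplicit false
set_option linter.unusedSectionVars false

open MeasureTheory Filter Topology
open scoped ENNReal Pointwise

namespace Pool.Agent.Helper17.FQ

open Pool.Agent.Helper84 Pool.Agent.Helper84.GN Pool.Agent.Helper84.GN.S3 Pool.Agent.Helper84.GN.S3.X
open Pool.Agent.Helper84.NI Pool.Agent.Helper84.GVN Pool.Agent.Helper90.RK
open Pool.Agent.Helper96.RK Pool.Agent.Helper66.FR Pool.Agent.Helper84.FR Pool.Agent.Helper55.FR
open Pool.Agent.Helper45.FQ (HC shell shell_cover LGof pE)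
open Pool.Agent.Helper52.FQ (sa sa_mono sa_add norm_sa_succ_left Unq)
open Pool.Agent.Helper84.GDL (GD)
open Pool.Agent.Helper85.KL (nr)
open Pool.Agent.Helper46.FQ (LC LCgood)

section Shift

theorem sa_shift_left {f : ℕ → ℕ → ℝ} {C : ℝ} (h : ∀ n m, |f n m| ≤ C) (s : ℕ) {N : ℕ} (hN : N ≠ 0) :
    |sa ℝ (fun n m => f (n + s) m) N - sa ℝ f N| ≤ 2 * C * s / N := by
  induction s with
  | zero => simp
  | succ s ih =>
    have h1 := norm_sa_succ_left ℝ (f := fun n m => f (n + s) m) (C := C) (fun n m => h _ _) hN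
    rw [Real.norm_eq_abs] at h1
    have h2 := abs_sub_le (sa ℝ (fun n m => f (n + 1 + s) m) N) (sa ℝ (fun n m => f (n + s) m) N) (sa ℝ f N)
    have h3 : (fun n m => f (n + (s + 1)) m) = fun n m => f (n + 1 + s) m := by
      funext n m
      congr 1
      omega
    rw [h3]
    have h4 : 2 * C * ((s + 1 : ℕ) : ℝ) / N = 2 * C / N + 2 * C * s / N := by
      push_cast
      ring
    rw [h4]
    linarith

theorem sa_shift {f : ℕ → ℕ → ℝ} {C : ℝ} (h : ∀ n m, |f n m| ≤ C) (p q : ℕ) {N : ℕ} (hN : N ≠ 0) :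
    |sa ℝ (fun n m => f (n + p - q) m) N - sa ℝ f N| ≤ 2 * C * (p + q) / N := by
  have h1 := sa_shift_left (f := fun n m => f (n + p - q) m) (fun n m => h _ _) q hN
  have h2 := sa_shift_left h p hN
  have h3 : (fun n m => f (n + q + p - q) m) = fun n m => f (n + p) m := by
    funext n m
    congr 1
    omega
  rw [h3] at h1
  have h4 := abs_sub_le (sa ℝ (fun n m => f (n + p - q) m) N) (sa ℝ (fun n m => f (n + p) m) N) (sa ℝ f N)
  rw [abs_sub_comm] at h1
  have h5 : 2 * C * ((p : ℝ) + q) / N = 2 * C * q / N + 2 * C * p / N := by ring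
  rw [h5]
  linarith

end Shift

section Avg

variable {Y : Type} [MeasurableSpace Y] {P : Measure Y} [IsProbabilityMeasure P] {F : Y → ℝ} {B : Set Y}

theorem avg_le (hF : Measurable F) (h1 : ∀ y, |F y| ≤ 1) {e c : ℝ} (hc : 0 ≤ c) (hB : P.real B ≤ e) (h : ∀ y, y ∉ B → F y ≤ c) :
    ∫ y, F y ∂P ≤ c + e := by
  have hm := measurableSet_toMeasurable P B
  have h2 : ∫ y, F y ∂P ≤ ∫ y, (c + (toMeasurable P B).indicator (fun _ => (1 : ℝ)) y) ∂P := by
    refine integral_mono (Integrable.of_bound hF.aestronglyMeasurable 1 (ae_of_all _ h1))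
      ((integrable_const c).add ((integrable_const (1 : ℝ)).indicator hm)) fun y => ?_
    by_cases hy : y ∈ toMeasurable P B
    · simp only [Set.indicator_of_mem hy]
      linarith [(abs_le.1 (h1 y)).2]
    · simp only [Set.indicator_of_notMem hy, add_zero]
      exact h y fun hc => hy (subset_toMeasurable P B hc)
  refine h2.trans ?_
  rw [integral_add (integrable_const c) ((integrable_const (1 : ℝ)).indicator hm), integral_const, probReal_univ, one_smul,
    integral_indicator_const _ hm, smul_eq_mul, mul_one, measureReal_def, measure_toMeasurable]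
  exact add_le_add le_rfl hB

theorem exists_le (hF : Measurable F) (h0 : ∀ y, 0 ≤ F y) (h1 : ∀ y, F y ≤ 1) {c : ℝ} (hc : 0 < c) (hB : P.real B ≤ 1 / 4)
    (h : ∫ y, F y ∂P ≤ c) : ∃ y, y ∉ B ∧ F y ≤ 2 * c := by
  by_contra hcon
  push Not at hcon
  have hm := measurableSet_toMeasurable P B
  have h2 : ∫ y, (2 * c - (toMeasurable P B).indicator (fun _ => 2 * c) y) ∂P ≤ ∫ y, F y ∂P := by
    refine integral_mono ((integrable_const _).sub ((integrable_const _).indicator hm))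
      (Integrable.of_bound hF.aestronglyMeasurable 1 (ae_of_all _ fun y => by rw [Real.norm_eq_abs, abs_of_nonneg (h0 y)]; exact h1 y)) fun y => ?_
    by_cases hy : y ∈ toMeasurable P B
    · simp only [Set.indicator_of_mem hy, sub_self]
      exact h0 y
    · simp only [Set.indicator_of_notMem hy, sub_zero]
      exact (hcon y fun hc => hy (subset_toMeasurable P B hc)).le
  rw [integral_sub (integrable_const _) ((integrable_const _).indicator hm), integral_const, probReal_univ, one_smul,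
    integral_indicator_const _ hm, smul_eq_mul, measureReal_def, measure_toMeasurable, ← measureReal_def] at h2
  nlinarith

end Avg

variable {G1 X G Λ : Type} [Group G1] [TopologicalSpace G1] [IsTopologicalGroup G1] [SecondCountableTopology G1] [LocallyCompactSpace G1]
  [MeasurableSpace G1] [BorelSpace G1] [MeasurableSpace X] [MulAction G1 X]
  [MeasurableConstSMul G1 X] [Group Λ] [Countable Λ] {μ : Measure X} [SMulInvariantMeasure G1 X μ]
  [IsProbabilityMeasure μ] {a : Cocy G1 X Λ} {w : G1} {j : Λ →* G1} {hm : Measure G1} {σ : X → G1} [Group G] {E : Emb Λ G}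
  {ι ι' : Type} [Fintype ι] [DecidableEq ι] {D : GD G1 ι}

theorem ea_pow (u : ι) (n : ℕ) : (D.ea (Pi.single u 1)) ^ n = D.ea (Pi.single u (n : ℝ)) := by
  induction n with
  | zero => rw [pow_zero, Nat.cast_zero, Pi.single_zero, D.ea_zero]
  | succ n ih => rw [pow_succ, ih, ← D.ea_add, ← Pi.single_add, Nat.cast_succ]

theorem mf_pm (S : Set G) (g : G1) : mf μ a (pm E S) g = Pool.Agent.Helper9.FQ.mass μ a E S g :=
  (Pool.Agent.Helper9.FQ.mass_int (μ := μ) (a := a) (E := E) S g).symm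

theorem mf_nonneg (S : Set G) (g : G1) : 0 ≤ mf μ a (pm E S) g := by
  rw [mf_pm]
  exact Pool.Agent.Helper9.FQ.mass_nonneg S g

theorem ff_nonneg (S : Set G) (N : ℕ) (g : G1) : 0 ≤ ff μ a w (pm E S) N g :=
  Pool.Agent.Helper52.FQ.sa_nonneg fun _ _ _ _ => mf_nonneg S _

theorem ff_le_one (S : Set G) (N : ℕ) (g : G1) : ff μ a w (pm E S) N g ≤ 1 := (le_abs_self _).trans (abs_ff_le (abs_pm S) N g)

theorem int_ff (h : HC μ a.a j hm σ) (S : Set G) (N : ℕ) (l : Λ) :
    ∫ x, ∫ y, ff μ a w (pm E S) N (σ x * j l * (σ y)⁻¹) ∂μ ∂μ = ∫ p : X × X, ff μ a w (pm E S) N (σ p.1 * j l * (σ p.2)⁻¹) ∂(μ.prod μ) := by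
  have hM : Measurable fun p : X × X => ff μ a w (pm E S) N (σ p.1 * j l * (σ p.2)⁻¹) :=
    (meas_ff h (pm E S) N).comp (((h.ms.comp measurable_fst).mul_const _).mul (measurable_inv.comp (h.ms.comp measurable_snd)))
  exact (integral_prod (f := fun p : X × X => ff μ a w (pm E S) N (σ p.1 * j l * (σ p.2)⁻¹))
    (Integrable.of_bound hM.aestronglyMeasurable 1 (ae_of_all _ fun p => abs_ff_le (abs_pm S) N _))).symm

/-- The limit of the integrals. -/
theorem th_eq (h : HC μ a.a j hm σ) (hU : Unq j σ) (h3 : Tendsto (fun g : G1 => μ {x | a.a g x ≠ 1}) (𝓝 1) (𝓝 0)) (hw : WH μ a hm w)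
    (l : Λ) (S : Set G) :
    th μ a E w l S = ulr fun N => ∫ p : X × X, ff μ a w (pm E S) N (σ p.1 * j l * (σ p.2)⁻¹) ∂(μ.prod μ) := by
  unfold th
  refine ulr_congr (C := 1) (fun N => ?_) ?_
  · have h1 := norm_integral_le_of_norm_le_const (μ := μ.prod μ) (f := fun p : X × X => ff μ a w (pm E S) N (σ p.1 * j l * (σ p.2)⁻¹)) (C := 1)
      (ae_of_all _ fun p => abs_ff_le (abs_pm S) N _)
    rw [probReal_univ, mul_one] at h1
    exact h1
  · refine (dd h hU (abs_pm (E := E) S) h3 hw l).congr fun N => ?_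
    rw [int_ff h]

/-- **Perturbation.** -/
theorem per (h : HC μ a.a j hm σ) (hU : Unq j σ) (h3 : Tendsto (fun g : G1 => μ {x | a.a g x ≠ 1}) (𝓝 1) (𝓝 0)) {u : ι}
    (hw : WH μ a hm (D.ea (Pi.single u 1))) (hL : LC μ D σ) {b1 : G → ι' → ℝ} (hb1 : ∀ g g' : G, ∃ K : ℝ, ∀ k v, |b1 (g * k * g') v - b1 k v| ≤ K)
    (i' : ι') :
    ∀ ε > 0, ∀ C : ℝ, ∃ η > 0, ∃ K : ℝ, ∀ (l l' : Λ) (S : Set G), nr (fun l v => D.mu (j l) v) u C l l' →
      th μ a E (D.ea (Pi.single u 1)) l {b | ∃ b' ∈ S, nr b1 i' K b b'} ≤ η → th μ a E (D.ea (Pi.single u 1)) l' S ≤ ε := by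
  classical
  intro ε hε C
  set w : G1 := D.ea (Pi.single u 1) with hwd
  obtain ⟨C1, hC1, hg1⟩ := hL (min (ε / 4) (1 / 4)) (by positivity)
  obtain ⟨B, hB, hcov⟩ := shell_cover D (2 * C1 + |C| + 1)
  obtain ⟨Q, M, hM, htr⟩ := Pool.Agent.Helper9.FQ.mass_transfer (E := E) h3 (hB.union D.cpt) (show 0 < ε / 4 by positivity)
  -- the constant `K`
  obtain ⟨K, hK⟩ : ∃ K : ℝ, ∀ q ∈ Q, ∀ q' ∈ Q, ∀ k v, |b1 (q * k * q') v - b1 k v| ≤ K := by
    choose K hK using hb1
    refine ⟨∑ q ∈ Q, ∑ q' ∈ Q, |K q q'|, fun q hq q' hq' k v => (hK q q' k v).trans ((le_abs_self _).trans ?_)⟩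
    refine (Finset.single_le_sum (f := fun q' => |K q q'|) (fun _ _ => abs_nonneg _) hq').trans ?_
    exact Finset.single_le_sum (f := fun q => ∑ q' ∈ Q, |K q q'|) (fun _ _ => Finset.sum_nonneg fun _ _ => abs_nonneg _) hq
  refine ⟨ε / (16 * (M + 1)), by positivity, K, fun l l' S hll hth => ?_⟩
  have hM1 : 0 < M + 1 := by linarith
  set S' : Set G := {b | ∃ b' ∈ S, nr b1 i' K b b'} with hS'
  have hsub : Pool.Agent.Helper43.TA.shf Q S ⊆ S' := by
    rintro γ ⟨q, hq, q', hq', hs⟩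
    exact ⟨_, hs, fun v _ => by rw [abs_sub_comm]; exact hK q hq q' hq' γ v⟩
  -- good pairs
  set Bd : Λ → Set (X × X) := fun l => {y | ¬ LCgood D σ C1 (j l) y} with hBd
  have hgood : ∀ (l : Λ) (y : X × X), y ∉ Bd l → ∀ (n m : ℕ) (v : ι),
      |D.mu (w ^ n * (σ y.1 * j l * (σ y.2)⁻¹) * w ^ m) v - (D.mu (j l) v + Pi.single (M := fun _ => ℝ) u (n : ℝ) v + Pi.single (M := fun _ => ℝ) u (m : ℝ) v)| ≤ C1 := by
    intro l y hy n m v
    rw [hwd, ea_pow, ea_pow]
    have h4 := not_not.1 hy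
    refine h4 _ _ (fun i => ?_) (fun i => ?_) v
    · by_cases hi : i = u
      · rw [hi, Pi.single_eq_same]
        positivity
      · rw [Pi.single_eq_of_ne hi]
    · by_cases hi : i = u
      · rw [hi, Pi.single_eq_same]
        positivity
      · rw [Pi.single_eq_of_ne hi]
  -- the shift
  obtain ⟨t, ht⟩ : ∃ t : ℤ, t = ⌊D.mu (j l') u - D.mu (j l) u⌋ := ⟨_, rfl⟩
  have ht1 : (t : ℝ) ≤ D.mu (j l') u - D.mu (j l) u := by
    rw [ht]
    exact Int.floor_le _
  have ht2 : D.mu (j l') u - D.mu (j l) u < t + 1 := by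
    rw [ht]
    exact Int.lt_floor_add_one _
  obtain ⟨p, hp⟩ : ∃ p : ℕ, p = t.toNat := ⟨_, rfl⟩
  obtain ⟨q, hq⟩ : ∃ q : ℕ, q = (-t).toNat := ⟨_, rfl⟩
  have hpq : (p : ℤ) - q = t := by
    rw [hp, hq]
    exact Int.toNat_sub_toNat_neg t
  have hpq' : (p : ℝ) - q = t := by exact_mod_cast hpq
  -- comparison of the masses
  have key : ∀ y ∉ Bd l, ∀ y' ∉ Bd l', ∀ n m : ℕ, q ≤ n →
      mf μ a (pm E S) (w ^ n * (σ y'.1 * j l' * (σ y'.2)⁻¹) * w ^ m) ≤
        M * mf μ a (pm E S') (w ^ (n + p - q) * (σ y.1 * j l * (σ y.2)⁻¹) * w ^ m) + ε / 4 := by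
    intro y hy y' hy' n m hn
    have h4 : w ^ n * (σ y'.1 * j l' * (σ y'.2)⁻¹) * w ^ m ∈
        shell D (w ^ (n + p - q) * (σ y.1 * j l * (σ y.2)⁻¹) * w ^ m) (2 * C1 + |C| + 1) := by
      intro v
      have h5 := abs_le.1 (hgood l' y' hy' n m v)
      have h6 := abs_le.1 (hgood l y hy (n + p - q) m v)
      have hC' := le_abs_self C
      have hC'' := abs_nonneg C
      by_cases hv : v = u
      · subst hv
        rw [Pi.single_eq_same, Pi.single_eq_same] at h5 h6
        have h7 : ((n + p - q : ℕ) : ℝ) = n + p - q := by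
          rw [Nat.cast_sub (by omega)]
          push_cast
          ring
        rw [h7] at h6
        rw [abs_le]
        constructor <;> linarith [h5.1, h5.2, h6.1, h6.2]
      · rw [Pi.single_eq_of_ne hv, Pi.single_eq_of_ne hv] at h5 h6
        have h8 := abs_le.1 (hll v hv)
        simp only at h8
        rw [abs_le]
        constructor <;> linarith [h5.1, h5.2, h6.1, h6.2, h8.1, h8.2]
    obtain ⟨x, hx, _, ⟨x0, hx0, k, hk, rfl⟩, hxe⟩ := hcov _ h4
    have hx0 : x0 = w ^ (n + p - q) * (σ y.1 * j l * (σ y.2)⁻¹) * w ^ m := hx0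
    subst hx0
    rw [mf_pm, mf_pm, ← hxe]
    have h9 := htr x (Or.inl hx) k (Or.inr hk) (w ^ (n + p - q) * (σ y.1 * j l * (σ y.2)⁻¹) * w ^ m) S
    show Pool.Agent.Helper9.FQ.mass μ a E S (x * (w ^ (n + p - q) * (σ y.1 * j l * (σ y.2)⁻¹) * w ^ m * k)) ≤ _
    rw [← mul_assoc x]
    refine h9.trans (add_le_add (mul_le_mul_of_nonneg_left ?_ hM) le_rfl)
    exact Pool.Agent.Helper9.FQ.mass_mono hsub _
  -- comparison of the averages
  have key2 : ∀ y ∉ Bd l, ∀ y' ∉ Bd l', ∀ N : ℕ, N ≠ 0 → q ≤ N →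
      ff μ a w (pm E S) N (σ y'.1 * j l' * (σ y'.2)⁻¹) ≤
        M * (ff μ a w (pm E S') N (σ y.1 * j l * (σ y.2)⁻¹) + 2 * (p + q) / N) + ε / 4 := by
    intro y hy y' hy' N hN hqN
    have h4 : ff μ a w (pm E S) N (σ y'.1 * j l' * (σ y'.2)⁻¹) ≤
        sa ℝ (fun n m => M * mf μ a (pm E S') (w ^ (n + p - q) * (σ y.1 * j l * (σ y.2)⁻¹) * w ^ m) + ε / 4) N :=
      sa_mono fun n m hn _ => key y hy y' hy' n m (hqN.trans hn)
    have h5 : sa ℝ (fun n m => M * mf μ a (pm E S') (w ^ (n + p - q) * (σ y.1 * j l * (σ y.2)⁻¹) * w ^ m) + ε / 4) N =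
        M * sa ℝ (fun n m => mf μ a (pm E S') (w ^ (n + p - q) * (σ y.1 * j l * (σ y.2)⁻¹) * w ^ m)) N + ε / 4 := by
      have h6 := sa_add ℝ (fun n m => M * mf μ a (pm E S') (w ^ (n + p - q) * (σ y.1 * j l * (σ y.2)⁻¹) * w ^ m)) (fun _ _ => ε / 4) N
      rw [h6, Pool.Agent.Helper52.FQ.sa_const ℝ _ hN]
      have h7 := Pool.Agent.Helper52.FQ.sa_smul ℝ M (fun n m => mf μ a (pm E S') (w ^ (n + p - q) * (σ y.1 * j l * (σ y.2)⁻¹) * w ^ m)) N
      simp only [smul_eq_mul] at h7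
      rw [h7]
    rw [h5] at h4
    have h8 := sa_shift (f := fun n m => mf μ a (pm E S') (w ^ n * (σ y.1 * j l * (σ y.2)⁻¹) * w ^ m)) (C := 1)
      (fun n m => abs_mf_le (abs_pm _) _) p q hN
    have h9 := (abs_le.1 h8).2
    rw [mul_one] at h9
    refine h4.trans (add_le_add (mul_le_mul_of_nonneg_left ?_ hM) le_rfl)
    unfold ff
    linarith
  -- the averages over `x`, `y`
  have hMe : ∀ (l : Λ) (S : Set G) (N : ℕ), Measurable fun p : X × X => ff μ a w (pm E S) N (σ p.1 * j l * (σ p.2)⁻¹) := fun l S N =>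
    (meas_ff h (pm E S) N).comp (((h.ms.comp measurable_fst).mul_const _).mul (measurable_inv.comp (h.ms.comp measurable_snd)))
  have hbd : ∀ (l : Λ) (S : Set G) (N : ℕ), |∫ p : X × X, ff μ a w (pm E S) N (σ p.1 * j l * (σ p.2)⁻¹) ∂(μ.prod μ)| ≤ 1 := by
    intro l S N
    have h1 := norm_integral_le_of_norm_le_const (μ := μ.prod μ) (f := fun p : X × X => ff μ a w (pm E S) N (σ p.1 * j l * (σ p.2)⁻¹)) (C := 1)
      (ae_of_all _ fun p => abs_ff_le (abs_pm S) N _)
    rw [probReal_univ, mul_one] at h1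
    exact h1
  set η := ε / (16 * (M + 1)) with hη
  have hηp : 0 < η := by positivity
  rw [th_eq h hU h3 hw] at hth ⊢
  have hev := ulr_freq (c := 2 * η) (hbd l S') (by linarith)
  have hN1 : ∀ᶠ N : ℕ in (hyperfilter ℕ : Filter ℕ), N ≠ 0 ∧ q ≤ N ∧ M * (2 * (p + q) / N) ≤ ε / 8 := by
    refine Filter.Eventually.filter_mono hyper_atTop ?_
    have h4 : Tendsto (fun N : ℕ => M * (2 * ((p : ℝ) + q) / N)) atTop (𝓝 0) := by
      have h5 := (tendsto_const_div_atTop_nhds_zero_nat (2 * ((p : ℝ) + q))).const_mul M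
      rwa [mul_zero] at h5
    filter_upwards [eventually_ne_atTop 0, eventually_ge_atTop q, h4.eventually (gt_mem_nhds (show (0 : ℝ) < ε / 8 by positivity))] with N a1 a2 a3
    exact ⟨a1, a2, a3.le⟩
  refine le_of_tendsto (tendsto_ulr (hbd l' S)) ?_
  filter_upwards [hev, hN1] with N hN hN'
  obtain ⟨hN0, hqN, hsm⟩ := hN'
  obtain ⟨y, hy, hyF⟩ := exists_le (P := μ.prod μ) (B := Bd l) (hMe l S' N) (fun y => ff_nonneg S' N _) (fun y => ff_le_one S' N _)
    (c := 2 * η) (by positivity) ((hg1 (j l)).trans (min_le_right _ _)) hN.le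
  have h10 := avg_le (P := μ.prod μ) (B := Bd l') (hMe l' S N) (fun y => abs_ff_le (abs_pm S) N _) (e := ε / 4) (c := ε / 4 + ε / 8 + ε / 4)
    (by positivity) ((hg1 (j l')).trans (min_le_left _ _)) (fun y' hy' => by
      refine (key2 y hy y' hy' N hN0 hqN).trans ?_
      have h11 : M * (2 * (2 * η)) ≤ ε / 4 := by
        rw [hη]
        have h12 : M * (2 * (2 * (ε / (16 * (M + 1))))) = (ε / 4) * (M / (M + 1)) := by
          field_simp
          ring
        rw [h12]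
        have h13 : M / (M + 1) ≤ 1 := by
          rw [div_le_one hM1]
          linarith
        nlinarith
      have h14 : M * (ff μ a w (pm E S') N (σ y.1 * j l * (σ y.2)⁻¹) + 2 * (p + q) / N) =
          M * ff μ a w (pm E S') N (σ y.1 * j l * (σ y.2)⁻¹) + M * (2 * (p + q) / N) := by ring
      rw [h14]
      have h15 := mul_le_mul_of_nonneg_left hyF hM
      linarith)
  linarith

end Pool.Agent.Helper17.FQ
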