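import Pool.Agent.Helper17.FQ.Per
import Pool.Agent.Helper52.FQ.Br

/-!
# Project FQ (MP_0f6f3f_an): the hypotheses `WH` from helper52's `DD`

The map `c ↦ c δ₁` intertwines the trivial representation and the conjugation representation.
-/

set_option autoImplicit false
set_option linter.unusedSectionVars false

open MeasureTheory Filter Topology
open scoped ENNReal Pointwise

namespace Pool.Agent.Helper17.FQ

open Pool.Agent.Helper84 Pool.Agent.Helper84.GN Pool.Agent.Helper84.GN.S3 Pool.Agent.Helper84.GN.S3.X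
open Pool.Agent.Helper84.NI Pool.Agent.Helper84.GVN Pool.Agent.Helper90.RK
open Pool.Agent.Helper96.RK Pool.Agent.Helper66.FR Pool.Agent.Helper84.FR Pool.Agent.Helper55.FR
open Pool.Agent.Helper45.FQ (HC pE)
open Pool.Agent.Helper78.BM (adR adR_apply adR_one FullE InvT)
open Pool.Agent.Helper52.FQ (DD)

variable {G1 X G Λ : Type} [Group G1] [TopologicalSpace G1] [IsTopologicalGroup G1] [SecondCountableTopology G1] [LocallyCompactSpace G1]
  [MeasurableSpace G1] [BorelSpace G1] [MeasurableSpace X] [MulAction G1 X]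
  [MeasurableConstSMul G1 X] [Group G] [Group Λ] [Countable Λ] {μ : Measure X} [SMulInvariantMeasure G1 X μ]
  [IsProbabilityMeasure μ] {a : Cocy G1 X Λ} {E : Emb Λ G} {w : G1} {j : Λ →* G1} {hm : Measure G1} {σ : X → G1}

/-- The map `c ↦ c δ₁`. -/
noncomputable def i1 (G : Type) [Group G] : ℂ →L[ℂ] L2 G := (ContinuousLinearMap.id ℂ ℂ).smulRight (GVN.dl 1 : L2 G)

theorem i1_apply (c : ℂ) : i1 G c = c • (GVN.dl 1 : L2 G) := rfl

theorem vg_i1 (φ : XL μ ℂ) (g : G1) :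
    vg μ a (adR E.conj) g (cl μ (i1 G) φ) = cl μ (i1 G) (vg μ a (1 : Λ →* (ℂ ≃ₗᵢ[ℂ] ℂ)) g φ) := by
  refine xl_ext ?_
  filter_upwards [vg_apply a (adR E.conj) g (cl μ (i1 G) φ), cl_apply (i1 G) (vg μ a (1 : Λ →* (ℂ ≃ₗᵢ[ℂ] ℂ)) g φ),
    vg_apply a (1 : Λ →* (ℂ ≃ₗᵢ[ℂ] ℂ)) g φ,
    (measurePreserving_smul g⁻¹ μ).quasiMeasurePreserving.ae (cl_apply (μ := μ) (i1 G) φ)] with x h1 h2 h3 h4
  rw [h1, h2, h3, h4, i1_apply, i1_apply, map_smul, adR_one]
  rfl

theorem wh_of (h : DD μ a E w j hm σ) : WH μ a hm w where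
  cell := h.cell
  erg φ hφ := by
    have h1 : vg μ a (adR E.conj) w (cl μ (i1 G) φ) = cl μ (i1 G) φ := by rw [vg_i1, hφ]
    obtain ⟨c, hc⟩ := h.inv _ (h.fix _ h1)
    refine ⟨c, xl_ext ?_⟩
    have h2 : c • cst μ (GVN.dl 1 : L2 G) = cst μ (c • (GVN.dl 1 : L2 G)) := (map_smul _ _ _).symm
    rw [h2] at hc
    filter_upwards [cl_apply (μ := μ) (i1 G) φ, cst_apply (μ := μ) (c • (GVN.dl 1 : L2 G)), cst_apply (μ := μ) c] with x e1 e2 e3
    rw [e3]
    rw [hc, e2, i1_apply] at e1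
    have h3 := congrArg (fun v => inner ℂ (GVN.dl 1 : L2 G) v) e1
    simp only [inner_smul_right, inner_dl_left, GVN.dl_self, mul_one] at h3
    exact h3.symm

end Pool.Agent.Helper17.FQ
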