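import Pool.Agent.Helper17.FQ.Tn
import Pool.Agent.Helper17.FQ.WHo
import Pool.Agent.Helper42.FQ.Rep

/-!
# Project FQ (MP_0f6f3f_an): the sandwich data from the four fields

`sand_of`: the structure `KL.Sand` for `th μ a E (ea e_u)`, from `DD` (helper52), `LC` (helper46) and the field `ins` (helper13).
-/

set_option autoImplicit false
set_option linter.unusedSectionVars false

open MeasureTheory Filter Topology
open scoped ENNReal Pointwise

namespace Pool.Agent.Helper17.FQ

open Pool.Agent.Helper84 Pool.Agent.Helper84.GN Pool.Agent.Helper84.GN.S3 Pool.Agent.Helper84.GN.S3.X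
open Pool.Agent.Helper84.NI Pool.Agent.Helper84.GVN Pool.Agent.Helper90.RK
open Pool.Agent.Helper96.RK Pool.Agent.Helper66.FR Pool.Agent.Helper84.FR Pool.Agent.Helper55.FR
open Pool.Agent.Helper45.FQ (HC shell shell_cover LGof pE)
open Pool.Agent.Helper52.FQ (sa sa_mono sa_add norm_sa_succ_left Unq DD)
open Pool.Agent.Helper84.GDL (GD)
open Pool.Agent.Helper85.KL (nr Sand)
open Pool.Agent.Helper46.FQ (LC LCgood)
open Pool.Agent.Helper20.FQ (IsType TightN)
open Pool.Agent.Helper43.FQ (Gp)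

variable {G1 X G Λ : Type} [Group G1] [TopologicalSpace G1] [IsTopologicalGroup G1] [SecondCountableTopology G1] [LocallyCompactSpace G1]
  [T2Space G1] [MeasurableSpace G1] [BorelSpace G1] [MeasurableSpace X] [MulAction G1 X]
  [MeasurableConstSMul G1 X] [Group Λ] [Countable Λ] {μ : Measure X} [SMulInvariantMeasure G1 X μ]
  [IsProbabilityMeasure μ] {a : Cocy G1 X Λ} {j : Λ →* G1} {hm : Measure G1} {σ : X → G1} [Group G] {E : Emb Λ G}
  {ι : Type} [Fintype ι] [DecidableEq ι] {D : GD G1 ι}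

theorem gp_shift {r : ℕ} (A : Gp G r) (g g' : G) : ∃ K : ℝ, ∀ k v, |A.gap (g * k * g') v - A.gap k v| ≤ K := by
  obtain ⟨C, hC⟩ := A.gshift g⁻¹ g'
  refine ⟨C, fun k v => ?_⟩
  have h := hC k v
  rw [inv_inv] at h
  rw [abs_le]
  constructor <;> linarith [h.1, h.2]

/-- **The sandwich data.** -/
theorem sand_of {r : ℕ} {A : Gp G r} {v₀ : Fin r} {u : ι} (h : DD μ a E (D.ea (Pi.single u 1)) j hm σ) (hL : LC μ D σ)
    (hins : ∀ ε > 0, ∃ L C : ℝ, ∀ b, L ≤ A.gap b v₀ → ∑' l, pE E l b * th μ a E (D.ea (Pi.single u 1)) l {b' | ¬ nr A.gap v₀ C b b'} ≤ ε) :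
    Sand (pE E) (nr (fun l v => D.mu (j l) v) u) (fun l => D.mu (j l) u) (nr A.gap v₀) (fun b => A.gap b v₀)
      (th μ a E (D.ea (Pi.single u 1))) where
  prob _ := th_fprob
  ins := hins
  per := per h.hc h.unq h.h3 (wh_of h) hL (gp_shift A) v₀
  rep := Pool.Agent.Helper42.FQ.rep h.hc hL u

end Pool.Agent.Helper17.FQ
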