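import Pool.Agent.Helper17.FQ.Per
import Pool.Agent.Helper20.FQ.Typ
import Pool.Agent.Helper20.FQ.Match

/-!
# Project FQ (MP_0f6f3f_an): the laws `θ` are tight in the gaps different from the type

`tight_th`: if the powers of `w = ea e_u` have the type `v` then `th l` is tight in the gaps different from `v`, for every `l`.
-/

set_option autoImplicit false
set_option linter.unusedSectionVars false

open MeasureTheory Filter Topology
open scoped ENNReal Pointwise

namespace Pool.Agent.Helper17.FQ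

open Pool.Agent.Helper84 Pool.Agent.Helper84.GN Pool.Agent.Helper84.GN.S3 Pool.Agent.Helper84.GN.S3.X
open Pool.Agent.Helper84.NI Pool.Agent.Helper84.GVN Pool.Agent.Helper90.RK
open Pool.Agent.Helper96.RK Pool.Agent.Helper66.FR Pool.Agent.Helper84.FR Pool.Agent.Helper55.FR
open Pool.Agent.Helper45.FQ (HC shell shell_cover LGof pE)
open Pool.Agent.Helper52.FQ (sa sa_mono sa_add norm_sa_succ_left Unq)
open Pool.Agent.Helper84.GDL (GD)
open Pool.Agent.Helper85.KL (nr)
open Pool.Agent.Helper46.FQ (LC LCgood)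
open Pool.Agent.Helper20.FQ (IsType TightN)
open Pool.Agent.Helper9.FQ (one shf_gap mass_transfer mass_mono mass_compl)
open Pool.Agent.Helper43.FQ (Gp)

variable {G1 X G Λ : Type} [Group G1] [TopologicalSpace G1] [IsTopologicalGroup G1] [SecondCountableTopology G1] [LocallyCompactSpace G1]
  [MeasurableSpace G1] [BorelSpace G1] [MeasurableSpace X] [MulAction G1 X]
  [MeasurableConstSMul G1 X] [Group Λ] [Countable Λ] {μ : Measure X} [SMulInvariantMeasure G1 X μ]
  [IsProbabilityMeasure μ] {a : Cocy G1 X Λ} {j : Λ →* G1} {hm : Measure G1} {σ : X → G1} [Group G] {E : Emb Λ G}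
  {ι : Type} [Fintype ι] [DecidableEq ι] {D : GD G1 ι}

theorem single_nonneg (u : ι) (n : ℕ) (i : ι) : 0 ≤ Pi.single (M := fun _ => ℝ) u (n : ℝ) i := by
  by_cases hi : i = u
  · rw [hi, Pi.single_eq_same]
    positivity
  · rw [Pi.single_eq_of_ne hi]

/-- Good pairs at a node. -/
theorem good_pow {C : ℝ} {h : G1} {y : X × X} (hy : LCgood D σ C h y) (u : ι) (n m : ℕ) (v : ι) :
    |D.mu (D.ea (Pi.single u 1) ^ n * (σ y.1 * h * (σ y.2)⁻¹) * D.ea (Pi.single u 1) ^ m) v -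
      (D.mu h v + Pi.single (M := fun _ => ℝ) u (n : ℝ) v + Pi.single (M := fun _ => ℝ) u (m : ℝ) v)| ≤ C := by
  rw [ea_pow, ea_pow]
  exact hy _ _ (single_nonneg u n) (single_nonneg u m) v

/-- **Tightness of the laws.** -/
theorem tight_th {r : ℕ} {A : Gp G r} {v₀ : Fin r} (h : HC μ a.a j hm σ) (hU : Unq j σ)
    (h3 : Tendsto (fun g : G1 => μ {x | a.a g x ≠ 1}) (𝓝 1) (𝓝 0)) {u : ι}
    (hw : WH μ a hm (D.ea (Pi.single u 1))) (hL : LC μ D σ)
    (ht : IsType μ a E A (fun n : ℕ => D.ea (Pi.single u 1) ^ n) atTop v₀) (l : Λ) :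
    TightN A.gap v₀ (th μ a E (D.ea (Pi.single u 1)) l) := by
  classical
  intro ε hε
  obtain ⟨C1, hC1, hg1⟩ := hL (ε / 4) (by positivity)
  obtain ⟨C2, hC2⟩ : ∃ C2, C2 = C1 + ∑ v, D.mu (j l) v := ⟨_, rfl⟩
  obtain ⟨B, hB, hcov⟩ := shell_cover D C2
  obtain ⟨Q, M, hM, htr⟩ := mass_transfer (E := E) h3 (hB.union D.cpt) (show 0 < ε / 4 by positivity)
  obtain ⟨K, hK⟩ := shf_gap A Q
  have hM1 : 0 < M + 1 := by linarith
  obtain ⟨R, hR⟩ := ht (ε / (4 * (M + 1))) (by positivity)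
  obtain ⟨n₀, hn₀⟩ := eventually_atTop.1 (hR 0)
  refine ⟨R + K, ?_⟩
  set w : G1 := D.ea (Pi.single u 1) with hwd
  set S : Set G := {b | ∃ v, v ≠ v₀ ∧ (R : ℝ) + K < A.gap b v} with hS
  have hsub : Pool.Agent.Helper43.TA.shf Q S ⊆ (one A v₀ R 0)ᶜ := by
    rintro γ ⟨q, hq, q', hq', v, hv, hs⟩ ⟨-, h2⟩
    have h4 := (hK q hq q' hq' γ v).1
    have h5 := h2 v hv
    linarith
  -- masses
  have key : ∀ y, LCgood D σ C1 (j l) y → ∀ n m : ℕ, n₀ ≤ n → mf μ a (pm E S) (w ^ n * (σ y.1 * j l * (σ y.2)⁻¹) * w ^ m) ≤ ε / 2 := by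
    intro y hy n m hn
    have h4 : w ^ n * (σ y.1 * j l * (σ y.2)⁻¹) * w ^ m ∈ shell D (w ^ (n + m)) C2 := by
      intro v
      have h5 := abs_le.1 (good_pow hy u n m v)
      have h6 : D.mu (w ^ (n + m)) v = Pi.single (M := fun _ => ℝ) u (n : ℝ) v + Pi.single (M := fun _ => ℝ) u (m : ℝ) v := by
        rw [hwd, ea_pow, D.mu_ea (single_nonneg u (n + m)), Nat.cast_add, Pi.single_add, Pi.add_apply]
      have h7 : D.mu (j l) v ≤ ∑ v, D.mu (j l) v := Finset.single_le_sum (f := fun v => D.mu (j l) v) (fun v _ => D.mu_nonneg _ v) (Finset.mem_univ v)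
      have h8 := D.mu_nonneg (j l) v
      rw [h6, hC2, abs_le]
      constructor <;> linarith [h5.1, h5.2]
    obtain ⟨x, hx, _, ⟨x0, hx0, k, hk, rfl⟩, hxe⟩ := hcov _ h4
    have hx0 : x0 = w ^ (n + m) := hx0
    subst hx0
    rw [mf_pm, ← hxe]
    have h9 := htr x (Or.inl hx) k (Or.inr hk) (w ^ (n + m)) S
    show Pool.Agent.Helper9.FQ.mass μ a E S (x * (w ^ (n + m) * k)) ≤ _
    rw [← mul_assoc x]
    have h10 := mass_mono (μ := μ) (a := a) (E := E) hsub (w ^ (n + m))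
    have h11 := mass_compl (μ := μ) (a := a) (E := E) (one A v₀ R 0) (w ^ (n + m))
    have h12 := hn₀ (n + m) (hn.trans (Nat.le_add_right _ _))
    have h13 : Pool.Agent.Helper9.FQ.mass μ a E (Pool.Agent.Helper43.TA.shf Q S) (w ^ (n + m)) ≤ ε / (4 * (M + 1)) := by linarith
    have h14 : M * (ε / (4 * (M + 1))) ≤ ε / 4 := by
      have h15 : M * (ε / (4 * (M + 1))) = ε / 4 * (M / (M + 1)) := by
        field_simp
      rw [h15]
      have h16 : M / (M + 1) ≤ 1 := by
        rw [div_le_one hM1]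
        linarith
      nlinarith
    have h17 := mul_le_mul_of_nonneg_left h13 hM
    linarith
  have hMe : ∀ N : ℕ, Measurable fun p : X × X => ff μ a w (pm E S) N (σ p.1 * j l * (σ p.2)⁻¹) := fun N =>
    (meas_ff h (pm E S) N).comp (((h.ms.comp measurable_fst).mul_const _).mul (measurable_inv.comp (h.ms.comp measurable_snd)))
  rw [th_eq h hU h3 hw]
  refine ulr_le_of (C := 1) (fun N => ?_) ?_
  · have h1 := norm_integral_le_of_norm_le_const (μ := μ.prod μ) (f := fun p : X × X => ff μ a w (pm E S) N (σ p.1 * j l * (σ p.2)⁻¹)) (C := 1)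
      (ae_of_all _ fun p => abs_ff_le (abs_pm S) N _)
    rw [probReal_univ, mul_one] at h1
    exact h1
  · filter_upwards [eventually_ge_atTop (max n₀ 1)] with N hN
    have hN0 : N ≠ 0 := by
      have := (le_max_right n₀ 1).trans hN
      omega
    refine (avg_le (P := μ.prod μ) (hMe N) (fun y => abs_ff_le (abs_pm S) N _) (c := ε / 2) (by positivity) (hg1 (j l)) fun y hy => ?_).trans
      (by linarith)
    have h4 : ff μ a w (pm E S) N (σ y.1 * j l * (σ y.2)⁻¹) ≤ sa ℝ (fun _ _ => ε / 2) N :=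
      sa_mono fun n m hn _ => key y (not_not.1 hy) n m (((le_max_left _ _).trans hN).trans hn)
    rwa [Pool.Agent.Helper52.FQ.sa_const ℝ _ hN0] at h4

end Pool.Agent.Helper17.FQ
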